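import Pool.Agent.Helper97.Nag.Goals
import Pool.Agent.Helper99.Tate.PRD

/-!
# Packet NAG-PRDR (project NAG, MP_d3128a_ag)

Tate-PRD with real weights.
-/

set_option autoImplicit false

namespace Pool.Agent.Helper96.Nag.PRDR

open Pool.Agent.Helper97.Nag
open Pool.Agent.Helper99.Tate.PRD (two_ne two_eq)
open scoped BigOperators

section

variable {G : Type} [AddCommGroup G]

theorem main (bw : G →+ ℝ) {ι : Type} (s : Finset ι)
    (F : ι → PowerSeries (AddMonoidAlgebra ℚ G)) (om : ι → ℝ) (Pn : ι → ℕ) (Pg : ι → G)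
    (hF : ∀ c ∈ s, ∀ (N : ℕ) (g : G), (PowerSeries.coeff N (F c)).coeff g ≠ 0 →
      om c ≤ N + bw g ∧ (om c = N + bw g → N = Pn c ∧ g = Pg c)) :
    (∀ (N : ℕ) (g : G), (PowerSeries.coeff N (∏ c ∈ s, F c)).coeff g ≠ 0 →
      ∑ c ∈ s, om c ≤ N + bw g ∧ (∑ c ∈ s, om c = N + bw g →
        N = ∑ c ∈ s, Pn c ∧ g = ∑ c ∈ s, Pg c ∧ ∀ c ∈ s, om c = Pn c + bw (Pg c))) ∧
    ((∀ c ∈ s, om c = Pn c + bw (Pg c)) →
      (PowerSeries.coeff (∑ c ∈ s, Pn c) (∏ c ∈ s, F c)).coeff (∑ c ∈ s, Pg c) =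
        ∏ c ∈ s, (PowerSeries.coeff (Pn c) (F c)).coeff (Pg c)) := by
  classical
  induction s using Finset.induction_on with
  | empty =>
    constructor
    · intro N g h
      rw [Finset.prod_empty, PowerSeries.coeff_one] at h
      by_cases hN : N = 0
      · rw [if_pos hN, AddMonoidAlgebra.one_def, AddMonoidAlgebra.coeff_single,
          Finsupp.single_apply] at h
        by_cases hg : (0 : G) = g
        · subst hg
          subst hN
          simp
        · rw [if_neg hg] at h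
          exact absurd rfl h
      · rw [if_neg hN] at h
        exact absurd (by simp) h
    · intro _
      simp [AddMonoidAlgebra.one_def]
  | insert c s hc ih =>
    obtain ⟨ih1, ih2⟩ := ih fun d hd => hF d (Finset.mem_insert_of_mem hd)
    have hFc := hF c (Finset.mem_insert_self c s)
    rw [Finset.prod_insert hc, Finset.sum_insert hc, Finset.sum_insert hc, Finset.sum_insert hc,
      Finset.prod_insert hc]
    constructor
    · intro N g h
      obtain ⟨n, m, a, b, hnm, hab, hn, hm⟩ := two_ne _ _ _ _ h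
      obtain ⟨h1, h1'⟩ := hFc n a hn
      obtain ⟨h2, h2'⟩ := ih1 m b hm
      have hw : (N : ℝ) + bw g = (n + bw a) + (m + bw b) := by
        rw [← hnm, ← hab, map_add]; push_cast; ring
      refine ⟨by rw [hw]; exact add_le_add h1 h2, fun he => ?_⟩
      rw [hw] at he
      have e1 : om c = n + bw a := by linarith
      have e2 : ∑ x ∈ s, om x = m + bw b := by linarith
      obtain ⟨hn1, ha1⟩ := h1' e1
      obtain ⟨hm2, hb2, hall⟩ := h2' e2
      refine ⟨by rw [← hnm, hn1, hm2], by rw [← hab, ha1, hb2], ?_⟩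
      intro d hd
      rcases Finset.mem_insert.1 hd with rfl | hd
      · rw [e1, hn1, ha1]
      · exact hall d hd
    · intro hall
      have hc' := hall c (Finset.mem_insert_self c s)
      have hs' : ∀ d ∈ s, om d = Pn d + bw (Pg d) := fun d hd =>
        hall d (Finset.mem_insert_of_mem hd)
      rw [← ih2 hs']
      apply two_eq
      intro n m a b hnm hab hn hm
      obtain ⟨h1, h1'⟩ := hFc n a hn
      obtain ⟨h2, -⟩ := ih1 m b hm
      have hsum : ∑ x ∈ s, om x = ((∑ x ∈ s, Pn x : ℕ) : ℝ) + bw (∑ x ∈ s, Pg x) := by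
        rw [map_sum]
        push_cast
        rw [← Finset.sum_add_distrib]
        exact Finset.sum_congr rfl hs'
      have hw : (n : ℝ) + bw a + (m + bw b) =
          Pn c + bw (Pg c) + (((∑ x ∈ s, Pn x : ℕ) : ℝ) + bw (∑ x ∈ s, Pg x)) := by
        have e1 : ((n : ℝ) + m) = Pn c + ((∑ x ∈ s, Pn x : ℕ) : ℝ) := by exact_mod_cast hnm
        have e2 : bw a + bw b = bw (Pg c) + bw (∑ x ∈ s, Pg x) := by
          rw [← map_add, hab, map_add]
        linarith
      exact h1' (by linarith)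

end

theorem t : S_PRDR := by
  intro G _ bw ι s F om Pn Pg hF
  obtain ⟨h1, h2⟩ := main bw s F om Pn Pg hF
  refine ⟨fun N g h => ?_, fun hsum => ⟨h2, ?_⟩⟩
  · obtain ⟨h3, h4⟩ := h1 N g h
    exact ⟨h3, fun h5 => ⟨(h4 h5).1, (h4 h5).2.1⟩⟩
  · rintro ⟨c, hc, hne⟩
    by_contra h0
    exact hne (((h1 _ _ h0).2 hsum).2.2 c hc)

end Pool.Agent.Helper96.Nag.PRDR
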